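import Pool.Agent.R598.EV.Conn

/-!
# Decision trees for functions on products
-/

set_option autoImplicit false

namespace Pool.Agent.R598.EV

open Finset
open Pool.Agent.TH431.GQ (DepthLe ind ind_mono)

/-- `H` is an Oliver group with first prime `p`: it is generated by a `p`-group `P`, a permutation
`c` which normalizes `P`, and a `q`-group `S`, `q` a prime, which normalizes `⟨P, c⟩`. -/
def Oliver {Y : Type} (p : ℕ) (H : Subgroup (Equiv.Perm Y)) : Prop :=
  ∃ (q : ℕ) (P S : Subgroup (Equiv.Perm Y)) (c : Equiv.Perm Y), q.Prime ∧ IsPGroup p P ∧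
    IsPGroup q S ∧ (∀ x ∈ P, c⁻¹ * x * c ∈ P) ∧
    (∀ s ∈ S, ∀ x ∈ P ⊔ Subgroup.zpowers c, s⁻¹ * x * s ∈ P ⊔ Subgroup.zpowers c) ∧
    H = P ⊔ Subgroup.zpowers c ⊔ S

/-- The action of pairs of permutations on pairs. -/
def prHom (Z Y : Type) : Equiv.Perm Z × Equiv.Perm Y →* Equiv.Perm (Z × Y) where
  toFun g := Equiv.prodCongr g.1 g.2
  map_one' := by
    ext x <;> rfl
  map_mul' g h := by
    ext x <;> rfl

theorem prHom_apply {Z Y : Type} (g : Equiv.Perm Z × Equiv.Perm Y) (x : Z × Y) :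
    prHom Z Y g x = (g.1 x.1, g.2 x.2) := rfl

theorem bound {Z Y : Type} [Fintype Z] [DecidableEq Z] [Fintype Y] [DecidableEq Y] {p s : ℕ}
    [Fact p.Prime] {G : Subgroup (Equiv.Perm Z)} (hG : Conn p s G) {H : Subgroup (Equiv.Perm Y)}
    (hH : Oliver p H) (htr : ∀ y y', ∃ h ∈ H, h y = y') {f : (Z × Y → Bool) → Bool}
    (hmono : Monotone f) (hne : ∃ x y, f x ≠ f y)
    (hinvG : ∀ g ∈ G, ∀ x : Z × Y → Bool, f (fun v => x (g v.1, v.2)) = f x)
    (hinvH : ∀ h ∈ H, ∀ x : Z × Y → Bool, f (fun v => x (v.1, h v.2)) = f x) {d : ℕ}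
    (hd : DepthLe d f) : s * Fintype.card Y ≤ d := by
  classical
  by_contra hlt
  have hlt' : d < s * Fintype.card Y := not_le.1 hlt
  -- the constant inputs
  have hfalse : f (ind ∅) = false := by
    by_contra h
    have h1 : f (ind ∅) = true := by simpa using h
    have h2 : ∀ x, f x = true := by
      intro x
      have h3 : f (ind ∅) ≤ f x := hmono fun v => by simp [ind]
      rw [h1] at h3
      exact Bool.eq_true_of_true_le h3
    obtain ⟨x, y, hxy⟩ := hne
    exact hxy ((h2 x).trans (h2 y).symm)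
  have htrue : f (ind Finset.univ) = true := by
    by_contra h
    have h1 : f (ind Finset.univ) = false := by simpa using h
    have h2 : ∀ x, f x = false := by
      intro x
      have h3 : f x ≤ f (ind Finset.univ) := hmono fun v => by simp [ind, Bool.le_true]
      rw [h1] at h3
      exact le_bot_iff.1 h3
    obtain ⟨x, y, hxy⟩ := hne
    exact hxy ((h2 x).trans (h2 y).symm)
  -- invariance
  have hinv : ∀ a ∈ G, ∀ b ∈ H, ∀ A : Finset (Z × Y),
      f (ind (A.map (prHom Z Y (a, b)).toEmbedding)) = f (ind A) := by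
    intro a ha b hb A
    have h1 : ind (A.map (prHom Z Y (a, b)).toEmbedding) =
        fun v => (fun w : Z × Y => ind A (w.1, b⁻¹ w.2)) (a⁻¹ v.1, v.2) := by
      funext v
      have h2 : v = prHom Z Y (a, b) (a⁻¹ v.1, b⁻¹ v.2) := by
        rw [prHom_apply]
        simp
      have h3 : v ∈ A.map (prHom Z Y (a, b)).toEmbedding ↔ (a⁻¹ v.1, b⁻¹ v.2) ∈ A := by
        constructor
        · intro h
          obtain ⟨w, hw, hw'⟩ := Finset.mem_map.1 h
          have h4 : prHom Z Y (a, b) w = prHom Z Y (a, b) (a⁻¹ v.1, b⁻¹ v.2) := hw'.trans h2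
          rw [← (prHom Z Y (a, b)).injective h4]
          exact hw
        · intro h
          exact Finset.mem_map.2 ⟨_, h, h2.symm⟩
      simp only [ind, h3]
    rw [h1, hinvG _ (G.inv_mem ha) (fun w : Z × Y => ind A (w.1, b⁻¹ w.2)),
      hinvH _ (H.inv_mem hb)]
  obtain ⟨q, P₀, S₀, c, hq, hP₀, hS₀, hc, hS₀n, rfl⟩ := hH
  have : Fact q.Prime := ⟨hq⟩
  have hR := hG (fun E => f (ind (E ×ˢ (Finset.univ : Finset Y))) = false) (by
    rw [Finset.empty_product]
    exact hfalse) (by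
    intro E E' hE h
    have h1 : f (ind (E' ×ˢ (Finset.univ : Finset Y))) ≤ f (ind (E ×ˢ Finset.univ)) :=
      hmono (ind_mono (Finset.product_subset_product_left hE))
    rw [h] at h1
    exact le_bot_iff.1 h1) (by
    intro g hg E h
    rw [← h, ← hinv g hg 1 (Subgroup.one_mem _) (E ×ˢ Finset.univ)]
    congr 2
    ext v
    rw [Finset.mem_product, Finset.mem_map, Finset.mem_map]
    constructor
    · rintro ⟨⟨w, hw, hw'⟩, -⟩
      refine ⟨(w, v.2), Finset.mem_product.2 ⟨hw, Finset.mem_univ _⟩, ?_⟩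
      exact Prod.ext hw' rfl
    · rintro ⟨w, hw, rfl⟩
      exact ⟨⟨w.1, (Finset.mem_product.1 hw).1, rfl⟩, Finset.mem_univ _⟩) (by
    intro P E O hPG hP hE hO hs h
    by_cases hdis : Disjoint E O
    swap
    · rw [Finset.not_disjoint_iff] at hdis
      obtain ⟨x, hxE, hxO⟩ := hdis
      have h1 : E ∪ O = E := by
        refine Finset.union_eq_left.2 fun y hy => ?_
        obtain ⟨g, hg, rfl⟩ := (hO x hxO y).1 hy
        rw [← hE g hg]
        exact Finset.mem_map_of_mem _ hxE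
      rw [h1]
      exact h
    by_contra hcon
    have hcon' : f (ind ((E ∪ O) ×ˢ (Finset.univ : Finset Y))) = true := by simpa using hcon
    rw [Finset.union_product] at hcon'
    let ψ := prHom Z Y
    let P' : Subgroup (Equiv.Perm (Z × Y)) := (P.prod P₀).map ψ
    let c' : Equiv.Perm (Z × Y) := ψ (1, c)
    let S' : Subgroup (Equiv.Perm (Z × Y)) := S₀.map (ψ.comp (MonoidHom.inr _ _))
    have hin : ((P₀ ⊔ Subgroup.zpowers c).map (ψ.comp (MonoidHom.inr _ _))) ≤
        P' ⊔ Subgroup.zpowers c' := by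
      rw [Subgroup.map_sup, MonoidHom.map_zpowers]
      refine sup_le_sup ?_ le_rfl
      rintro _ ⟨b, hb, rfl⟩
      exact ⟨(1, b), ⟨P.one_mem, hb⟩, rfl⟩
    have hΓ : P' ⊔ Subgroup.zpowers c' ⊔ S' ≤
        (P.prod (P₀ ⊔ Subgroup.zpowers c ⊔ S₀)).map ψ := by
      refine sup_le (sup_le ?_ ?_) ?_
      · rintro _ ⟨⟨a, b⟩, ⟨ha, hb⟩, rfl⟩
        exact ⟨(a, b), ⟨ha, (le_sup_left.trans le_sup_left : P₀ ≤ _) hb⟩, rfl⟩
      · rw [Subgroup.zpowers_le]
        exact ⟨(1, c), ⟨P.one_mem, (le_sup_right.trans le_sup_left :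
          Subgroup.zpowers c ≤ _) (Subgroup.mem_zpowers c)⟩, rfl⟩
      · rintro _ ⟨b, hb, rfl⟩
        exact ⟨(1, b), ⟨P.one_mem, (le_sup_right : S₀ ≤ _) hb⟩, rfl⟩
    have hΓ' : ∀ a ∈ P, ∀ b ∈ P₀ ⊔ Subgroup.zpowers c ⊔ S₀,
        ψ (a, b) ∈ P' ⊔ Subgroup.zpowers c' ⊔ S' := by
      intro a ha b hb
      have h1 : ψ (a, b) = ψ (a, 1) * ψ (1, b) := by
        rw [← map_mul]
        simp
      rw [h1]
      refine Subgroup.mul_mem _ ?_ ?_
      · exact (le_sup_left.trans le_sup_left : P' ≤ _) ⟨(a, 1), ⟨ha, P₀.one_mem⟩, rfl⟩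
      · have h2 : ((P₀ ⊔ Subgroup.zpowers c ⊔ S₀).map (ψ.comp (MonoidHom.inr _ _))) ≤
            P' ⊔ Subgroup.zpowers c' ⊔ S' := by
          rw [Subgroup.map_sup]
          exact sup_le_sup hin le_rfl
        exact h2 ⟨b, hb, rfl⟩
    have hstep := step hmono hd p q P' S' c' (by
        rintro ⟨g, hg⟩
        obtain ⟨⟨a, b⟩, ⟨ha, hb⟩, rfl⟩ := hg
        obtain ⟨i, hi⟩ := hP ⟨a, ha⟩
        obtain ⟨j, hj⟩ := hP₀ ⟨b, hb⟩
        have hi' : a ^ p ^ i = 1 := congrArg Subtype.val hi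
        have hj' : b ^ p ^ j = 1 := congrArg Subtype.val hj
        refine ⟨i + j, Subtype.ext ?_⟩
        change (ψ (a, b)) ^ p ^ (i + j) = 1
        rw [← map_pow, Prod.pow_mk]
        have h1 : a ^ p ^ (i + j) = 1 := by
          rw [pow_add, pow_mul, hi', one_pow]
        have h2 : b ^ p ^ (i + j) = 1 := by
          rw [add_comm, pow_add, pow_mul, hj', one_pow]
        rw [h1, h2]
        exact map_one ψ) (hS₀.map _) (by
        rintro _ ⟨⟨a, b⟩, ⟨ha, hb⟩, rfl⟩
        refine ⟨(a, c⁻¹ * b * c), ⟨ha, hc b hb⟩, ?_⟩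
        change ψ _ = (ψ (1, c))⁻¹ * ψ (a, b) * ψ (1, c)
        rw [← map_inv, ← map_mul, ← map_mul]
        simp) (by
        rintro _ ⟨t, ht, rfl⟩ x hx
        have h1 : P' ⊔ Subgroup.zpowers c' ≤ (P' ⊔ Subgroup.zpowers c').comap
            (MulAut.conj (ψ (1, t))⁻¹).toMonoidHom := by
          refine sup_le ?_ ?_
          · rintro _ ⟨⟨a, b⟩, ⟨ha, hb⟩, rfl⟩
            rw [Subgroup.mem_comap]
            change (ψ (1, t))⁻¹ * ψ (a, b) * ((ψ (1, t))⁻¹)⁻¹ ∈ _
            have h2 : (ψ (1, t))⁻¹ * ψ (a, b) * ((ψ (1, t))⁻¹)⁻¹ =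
                ψ (a, 1) * ψ (1, t⁻¹ * b * t) := by
              rw [inv_inv, ← map_inv, ← map_mul, ← map_mul, ← map_mul]
              simp
            rw [h2]
            refine Subgroup.mul_mem _ ?_ ?_
            · exact (le_sup_left : P' ≤ _) ⟨(a, 1), ⟨ha, P₀.one_mem⟩, rfl⟩
            · exact hin ⟨_, hS₀n t ht b ((le_sup_left : P₀ ≤ _) hb), rfl⟩
          · rw [Subgroup.zpowers_le, Subgroup.mem_comap]
            change (ψ (1, t))⁻¹ * ψ (1, c) * ((ψ (1, t))⁻¹)⁻¹ ∈ _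
            have h2 : (ψ (1, t))⁻¹ * ψ (1, c) * ((ψ (1, t))⁻¹)⁻¹ = ψ (1, t⁻¹ * c * t) := by
              rw [inv_inv, ← map_inv, ← map_mul, ← map_mul]
              simp
            rw [h2]
            exact hin ⟨_, hS₀n t ht c ((le_sup_right : Subgroup.zpowers c ≤ _)
              (Subgroup.mem_zpowers c)), rfl⟩
        have h2 := h1 hx
        rw [Subgroup.mem_comap] at h2
        change (ψ (1, t))⁻¹ * x * ((ψ (1, t))⁻¹)⁻¹ ∈ _ at h2
        rw [inv_inv] at h2
        exact h2) (by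
        intro g hg A
        obtain ⟨⟨a, b⟩, ⟨ha, hb⟩, rfl⟩ := hΓ hg
        exact hinv a (hPG ha) b hb A) (E ×ˢ Finset.univ) (O ×ˢ Finset.univ) (by
        rw [Finset.disjoint_left]
        intro v hv hv'
        exact Finset.disjoint_left.1 hdis (Finset.mem_product.1 hv).1
          (Finset.mem_product.1 hv').1) (by
        rw [Finset.card_product, Finset.card_univ]
        exact hlt'.trans_le (Nat.mul_le_mul_right _ hs)) (by
        intro g hg
        obtain ⟨⟨a, b⟩, ⟨ha, hb⟩, rfl⟩ := hΓ hg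
        refine map_eq_of_le fun v hv => ?_
        rw [Finset.mem_product] at hv ⊢
        refine ⟨?_, Finset.mem_univ _⟩
        change a v.1 ∈ E
        rw [← hE a ha]
        exact Finset.mem_map_of_mem _ hv.1) (by
        intro v hv w
        rw [Finset.mem_product] at hv ⊢
        constructor
        · rintro ⟨hw, -⟩
          obtain ⟨a, ha, ha'⟩ := (hO _ hv.1 _).1 hw
          obtain ⟨b, hb, hb'⟩ := htr v.2 w.2
          exact ⟨ψ (a, b), hΓ' a ha b hb, Prod.ext ha' hb'⟩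
        · rintro ⟨g, hg, rfl⟩
          obtain ⟨⟨a, b⟩, ⟨ha, hb⟩, rfl⟩ := hΓ hg
          exact ⟨(hO _ hv.1 _).2 ⟨a, ha, rfl⟩, Finset.mem_univ _⟩) hcon'
    rw [h] at hstep
    exact absurd hstep (by simp))
  rw [Finset.univ_product_univ, htrue] at hR
  exact absurd hR (by simp)

/-- The criterion with one orbit. -/
theorem conn_of_move {X : Type} [Fintype X] [DecidableEq X] {p : ℕ}
    {G P : Subgroup (Equiv.Perm X)} (hPG : P ≤ G) (hP : IsPGroup p P) (A : Finset X)
    (hA : ∀ x ∈ A, ∀ y, y ∈ A ↔ ∃ g ∈ P, g x = y) {g : Equiv.Perm X} (hg : g ∈ G)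
    (hgA : Aᶜ ⊆ A.map g.toEmbedding) : Conn p A.card G := by
  intro R h0 hsub hG hadd
  have hinvA : ∀ a ∈ P, A.map a.toEmbedding = A := fun a ha =>
    map_eq_of_le fun x hx => (hA x hx _).2 ⟨a, ha, rfl⟩
  have h1 := hadd P ∅ A hPG hP (fun a _ => by simp) hA le_rfl h0
  rw [Finset.empty_union] at h1
  have h2 := hsub _ _ hgA (hG g hg A h1)
  have h3 := hadd P Aᶜ A hPG hP (fun a ha => by
    refine map_eq_of_le fun x hx => ?_
    rw [Finset.mem_compl] at hx ⊢
    intro hx'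
    apply hx
    have h4 := (hA _ hx' x).2 ⟨a⁻¹, P.inv_mem ha, by simp⟩
    exact h4) hA le_rfl h2
  rw [Finset.union_comm, Finset.union_compl] at h3
  exact h3

/-- A cyclic group of order a power of `p`, transitive on a given set with `p ^ a` elements. -/
theorem exists_cyclic {X : Type} [Fintype X] [DecidableEq X] {p a : ℕ} [Fact p.Prime]
    (O : Finset X) (hO : O.card = p ^ a) : ∃ P : Subgroup (Equiv.Perm X), IsPGroup p P ∧
      (∀ x ∈ O, ∀ y, y ∈ O ↔ ∃ g ∈ P, g x = y) ∧ ∀ g ∈ P, ∀ x, x ∉ O → g x = x := by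
  classical
  have hne : NeZero (p ^ a) := ⟨(pow_pos (Fact.out : p.Prime).pos a).ne'⟩
  have e : ZMod (p ^ a) ≃ O := Fintype.equivOfCardEq (by
    rw [ZMod.card, Fintype.card_coe, hO])
  let τ : Equiv.Perm O := e.permCongr (Equiv.addRight (1 : ZMod (p ^ a)))
  let σ : Equiv.Perm X := Equiv.Perm.ofSubtype τ
  have hτ : ∀ (i : ℕ) (z : ZMod (p ^ a)), (τ ^ i) (e z) = e (z + i) := by
    intro i
    induction i with
    | zero =>
      intro z
      simp
    | succ i ih =>
      intro z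
      rw [pow_succ', Equiv.Perm.mul_apply, ih]
      simp only [τ, Equiv.permCongr_apply, Equiv.symm_apply_apply, Equiv.coe_addRight]
      push_cast
      rw [add_assoc]
  have hτ1 : τ ^ (p ^ a) = 1 := by
    ext x
    obtain ⟨z, rfl⟩ := e.surjective x
    rw [hτ]
    simp
  have hσi : ∀ (i : ℤ), σ ^ i = Equiv.Perm.ofSubtype (τ ^ i) := fun i => (map_zpow _ _ _).symm
  refine ⟨Subgroup.zpowers σ, ?_, ?_, ?_⟩
  · rintro ⟨g, hg⟩
    obtain ⟨i, rfl⟩ := Subgroup.mem_zpowers_iff.1 hg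
    refine ⟨a, Subtype.ext ?_⟩
    change (σ ^ i) ^ p ^ a = 1
    have h1 : σ ^ p ^ a = 1 := by
      change (Equiv.Perm.ofSubtype τ) ^ p ^ a = 1
      rw [← map_pow, hτ1, map_one]
    rw [← zpow_natCast, ← zpow_mul, mul_comm, zpow_mul, zpow_natCast, h1, one_zpow]
  · intro x hx y
    constructor
    · intro hy
      obtain ⟨z, hz⟩ := e.surjective ⟨x, hx⟩
      obtain ⟨w, hw⟩ := e.surjective ⟨y, hy⟩
      refine ⟨σ ^ (w - z).val, Subgroup.pow_mem _ (Subgroup.mem_zpowers σ) _, ?_⟩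
      have h1 : σ ^ (w - z).val = Equiv.Perm.ofSubtype (τ ^ (w - z).val) := (map_pow _ _ _).symm
      rw [h1, Equiv.Perm.ofSubtype_apply_of_mem _ hx, ← hz, hτ, ZMod.natCast_zmod_val,
        add_sub_cancel, hw]
    · rintro ⟨g, hg, rfl⟩
      obtain ⟨i, rfl⟩ := Subgroup.mem_zpowers_iff.1 hg
      rw [hσi, Equiv.Perm.ofSubtype_apply_of_mem _ hx]
      exact ((τ ^ i) ⟨x, hx⟩).2
  · intro g hg x hx
    obtain ⟨i, rfl⟩ := Subgroup.mem_zpowers_iff.1 hg
    rw [hσi, Equiv.Perm.ofSubtype_apply_of_not_mem _ hx]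

/-- Symmetric groups. -/
theorem conn_top {X : Type} [Fintype X] [DecidableEq X] {p a : ℕ} [Fact p.Prime]
    (h : p ^ a ≤ Fintype.card X) : Conn p (p ^ a) (⊤ : Subgroup (Equiv.Perm X)) := by
  classical
  intro R h0 hsub hG hadd
  have hpos : 0 < p ^ a := pow_pos (Fact.out : p.Prime).pos a
  have key : ∀ n : ℕ, ∀ E : Finset X, E.card = n → R E := by
    intro n
    induction n using Nat.strong_induction_on with
    | _ n ih =>
      intro E hE
      by_cases hn : p ^ a ≤ n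
      · obtain ⟨O, hO, hOc⟩ := Finset.exists_subset_card_eq (s := E) (n := p ^ a) (by omega)
        obtain ⟨P, h1, h2, h3⟩ := exists_cyclic O hOc
        have h4 : R (E \ O) := ih _ (by
          rw [Finset.card_sdiff_of_subset hO, hE, hOc]
          omega) _ rfl
        have h5 := hadd P (E \ O) O le_top h1 (fun g hg => by
          refine map_eq_of_le fun x hx => ?_
          rw [h3 g hg x (Finset.mem_sdiff.1 hx).2]
          exact hx) h2 hOc.ge h4
        rw [Finset.sdiff_union_of_subset hO] at h5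
        exact h5
      · obtain ⟨O, hO, -, hOc⟩ := Finset.exists_subsuperset_card_eq (Finset.subset_univ E)
          (n := p ^ a) (by omega) (by rw [Finset.card_univ]; exact h)
        obtain ⟨P, h1, h2, h3⟩ := exists_cyclic O hOc
        have h5 := hadd P ∅ O le_top h1 (fun g hg => by simp) h2 hOc.ge h0
        rw [Finset.empty_union] at h5
        exact hsub _ _ hO h5
  exact key _ Finset.univ rfl

end Pool.Agent.R598.EV
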