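import Pool.Agent.R598.EV.Step

/-!
# Connectedness of permutation groups by large orbits of `p`-subgroups
-/

set_option autoImplicit false

namespace Pool.Agent.R598.EV

open Finset
open Pool.Agent.TH431.GQ (DepthLe ind ind_mono)

/-- The group `G` of permutations of `X` is `(p, s)`-connected: each family `R` of subsets of `X`
with the following properties contains `X`. It contains the empty set, and with a set it contains
all its subsets and its images under `G`. If it contains `E`, then it contains `E ∪ O` for each
orbit `O`, with at least `s` elements, of each `p`-subgroup of `G` that preserves `E`. -/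
def Conn {X : Type} [Fintype X] [DecidableEq X] (p s : ℕ) (G : Subgroup (Equiv.Perm X)) : Prop :=
  ∀ R : Finset X → Prop, R ∅ → (∀ E E' : Finset X, E' ⊆ E → R E → R E') →
    (∀ g ∈ G, ∀ E : Finset X, R E → R (E.map g.toEmbedding)) →
    (∀ (P : Subgroup (Equiv.Perm X)) (E O : Finset X), P ≤ G → IsPGroup p P →
      (∀ g ∈ P, E.map g.toEmbedding = E) → (∀ x ∈ O, ∀ y, y ∈ O ↔ ∃ g ∈ P, g x = y) →
      s ≤ O.card → R E → R (E ∪ O)) → R Finset.univ

section pi

variable {k : ℕ} {X : Fin k → Type}

/-- The coordinatewise action. -/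
def piHom (X : Fin k → Type) : (∀ i, Equiv.Perm (X i)) →* Equiv.Perm (∀ i, X i) where
  toFun g := Equiv.piCongrRight g
  map_one' := by
    ext x i
    rfl
  map_mul' g h := by
    ext x i
    rfl

@[simp] theorem piHom_apply (g : ∀ i, Equiv.Perm (X i)) (x : ∀ i, X i) (i : Fin k) :
    piHom X g x i = g i (x i) := rfl

/-- The product group. -/
def piG (G : ∀ i, Subgroup (Equiv.Perm (X i))) : Subgroup (Equiv.Perm (∀ i, X i)) :=
  (Subgroup.pi Set.univ G).map (piHom X)

theorem mem_piG {G : ∀ i, Subgroup (Equiv.Perm (X i))} {g : Equiv.Perm (∀ i, X i)} :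
    g ∈ piG G ↔ ∃ g' : ∀ i, Equiv.Perm (X i), (∀ i, g' i ∈ G i) ∧ piHom X g' = g := by
  constructor
  · rintro ⟨g', h1, h2⟩
    exact ⟨g', fun i => h1 i trivial, h2⟩
  · rintro ⟨g', h1, h2⟩
    exact ⟨g', fun i _ => h1 i, h2⟩

theorem isPGroup_piG {p : ℕ} {P : ∀ i, Subgroup (Equiv.Perm (X i))}
    (hP : ∀ i, IsPGroup p (P i)) : IsPGroup p (piG P) := by
  rintro ⟨g, hg⟩
  obtain ⟨g', h1, rfl⟩ := mem_piG.1 hg
  have h2 : ∀ i, ∃ a : ℕ, g' i ^ p ^ a = 1 := by
    intro i
    obtain ⟨a, ha⟩ := hP i ⟨g' i, h1 i⟩
    exact ⟨a, congrArg Subtype.val ha⟩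
  choose a ha using h2
  refine ⟨∑ i, a i, Subtype.ext ?_⟩
  change (piHom X g') ^ p ^ (∑ i, a i) = 1
  rw [← map_pow]
  have h3 : g' ^ p ^ (∑ i, a i) = 1 := by
    funext i
    change g' i ^ p ^ (∑ i, a i) = 1
    have h4 : ∑ i, a i = a i + (∑ j, a j - a i) :=
      (Nat.add_sub_cancel' (Finset.single_le_sum (fun _ _ => Nat.zero_le _)
        (Finset.mem_univ i))).symm
    rw [h4, pow_add, pow_mul, ha, one_pow]
  rw [h3, map_one]

variable [∀ i, Fintype (X i)] [∀ i, DecidableEq (X i)]

theorem map_eq_of_le {X : Type} [DecidableEq X] {g : Equiv.Perm X} {E : Finset X}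
    (h : ∀ x ∈ E, g x ∈ E) : E.map g.toEmbedding = E := by
  refine Finset.eq_of_subset_of_card_le ?_ (by rw [Finset.card_map])
  intro y hy
  obtain ⟨x, hx, rfl⟩ := Finset.mem_map.1 hy
  exact h x hx

/-- **Connectedness of products.** -/
theorem conn_pi {p : ℕ} {s : Fin k → ℕ} {G : ∀ i, Subgroup (Equiv.Perm (X i))}
    (h : ∀ i, Conn p (s i) (G i)) : Conn p (∏ i, s i) (piG G) := by
  classical
  intro R h0 hsub hG hadd
  have key : ∀ j : ℕ, j ≤ k → ∀ (O : ∀ i, Finset (X i)) (P : ∀ i, Subgroup (Equiv.Perm (X i)))
      (E : Finset (∀ i, X i)), R E →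
      (∀ i : Fin k, i.1 < k - j → P i ≤ G i ∧ IsPGroup p (P i) ∧
        (∀ x ∈ O i, ∀ y, y ∈ O i ↔ ∃ g ∈ P i, g x = y) ∧ s i ≤ (O i).card) →
      (∀ g : ∀ i, Equiv.Perm (X i), (∀ i : Fin k, i.1 < k - j → g i ∈ P i) →
        ∀ x ∈ E, (fun i => g i (x i)) ∈ E) →
      (∀ x y : ∀ i, X i, (∀ i : Fin k, i.1 < k - j → x i = y i) → x ∈ E → y ∈ E) →
      R (E ∪ Finset.univ.filter fun x => ∀ i : Fin k, i.1 < k - j → x i ∈ O i) := by
    intro j
    induction j with
    | zero =>
      intro _ O P E hRE hOP hE _
      have hlt : ∀ i : Fin k, i.1 < k - 0 := fun i => i.2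
      have hset : (Finset.univ.filter fun x : ∀ i, X i => ∀ i : Fin k, i.1 < k - 0 → x i ∈ O i) =
          Fintype.piFinset O := by
        ext x
        rw [Finset.mem_filter, Fintype.mem_piFinset]
        exact ⟨fun h i => h.2 i (hlt i), fun h => ⟨Finset.mem_univ _, fun i _ => h i⟩⟩
      rw [hset]
      refine hadd (piG P) E _ ?_ (isPGroup_piG fun i => (hOP i (hlt i)).2.1) ?_ ?_ ?_ hRE
      · intro g hg
        obtain ⟨g', h1, rfl⟩ := mem_piG.1 hg
        exact mem_piG.2 ⟨g', fun i => (hOP i (hlt i)).1 (h1 i), rfl⟩
      · intro g hg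
        obtain ⟨g', h1, rfl⟩ := mem_piG.1 hg
        exact map_eq_of_le fun x hx => hE g' (fun i _ => h1 i) x hx
      · intro x hx y
        rw [Fintype.mem_piFinset] at hx ⊢
        constructor
        · intro hy
          have h1 : ∀ i, ∃ g ∈ P i, g (x i) = y i := fun i =>
            ((hOP i (hlt i)).2.2.1 _ (hx i) _).1 (hy i)
          choose g hg hg' using h1
          exact ⟨piHom X g, mem_piG.2 ⟨g, hg, rfl⟩, funext hg'⟩
        · rintro ⟨g, hg, rfl⟩ i
          obtain ⟨g', h1, rfl⟩ := mem_piG.1 hg
          exact ((hOP i (hlt i)).2.2.1 _ (hx i) _).2 ⟨g' i, h1 i, rfl⟩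
      · rw [Fintype.card_piFinset]
        exact Finset.prod_le_prod' fun i _ => (hOP i (hlt i)).2.2.2
    | succ j ih =>
      intro hj O P E hRE hOP hE hE'
      have hlt : k - (j + 1) < k := by omega
      have hk : k - j = k - (j + 1) + 1 := by omega
      let jj : Fin k := ⟨k - (j + 1), hlt⟩
      have hne : ∀ i : Fin k, i.1 < k - (j + 1) → i ≠ jj := by
        intro i hi h
        rw [h] at hi
        exact lt_irrefl _ hi
      let A : Finset (X jj) → Finset (∀ i, X i) := fun F => Finset.univ.filter fun x =>
        (∀ i : Fin k, i.1 < k - (j + 1) → x i ∈ O i) ∧ x jj ∈ F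
      have hA : ∀ F x, x ∈ A F ↔ (∀ i : Fin k, i.1 < k - (j + 1) → x i ∈ O i) ∧ x jj ∈ F := by
        intro F x
        simp [A]
      have hfin := h jj (fun F => R (E ∪ A F)) ?_ ?_ ?_ ?_
      · have h1 : A Finset.univ = Finset.univ.filter fun x : ∀ i, X i =>
            ∀ i : Fin k, i.1 < k - (j + 1) → x i ∈ O i := by
          ext x
          rw [hA, Finset.mem_filter]
          simp
        rw [← h1]
        exact hfin
      · have h1 : A ∅ = ∅ := by
          ext x
          rw [hA]
          simp
        rw [h1, Finset.union_empty]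
        exact hRE
      · intro F F' hFF hF
        refine hsub _ _ ?_ hF
        refine Finset.union_subset_union_right fun x hx => ?_
        rw [hA] at hx ⊢
        exact ⟨hx.1, hFF hx.2⟩
      · intro g hg F hF
        have h1 := hG (piHom X (Pi.mulSingle jj g)) (mem_piG.2 ⟨_, fun i => by
          by_cases hi : i = jj
          · subst hi
            rw [Pi.mulSingle_eq_same]
            exact hg
          · rw [Pi.mulSingle_eq_of_ne hi]
            exact (G i).one_mem, rfl⟩) _ hF
        refine hsub _ _ ?_ h1
        have hinv : ∀ x : ∀ i, X i, ∃ z, piHom X (Pi.mulSingle jj g) z = x ∧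
            (∀ i, i ≠ jj → z i = x i) ∧ g (z jj) = x jj := by
          intro x
          refine ⟨(piHom X (Pi.mulSingle jj g)).symm x, Equiv.apply_symm_apply _ _, ?_, ?_⟩
          · intro i hi
            have h2 := congrFun (Equiv.apply_symm_apply (piHom X (Pi.mulSingle jj g)) x) i
            rw [piHom_apply, Pi.mulSingle_eq_of_ne hi] at h2
            exact h2
          · have h2 := congrFun (Equiv.apply_symm_apply (piHom X (Pi.mulSingle jj g)) x) jj
            rw [piHom_apply, Pi.mulSingle_eq_same] at h2
            exact h2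
        intro x hx
        obtain ⟨z, hz, hz1, hz2⟩ := hinv x
        refine Finset.mem_map.2 ⟨z, ?_, hz⟩
        rcases Finset.mem_union.1 hx with hx | hx
        · exact Finset.mem_union_left _ (hE' x z (fun i hi => (hz1 i (hne i hi)).symm) hx)
        · refine Finset.mem_union_right _ ?_
          rw [hA] at hx ⊢
          refine ⟨fun i hi => ?_, ?_⟩
          · rw [hz1 i (hne i hi)]
            exact hx.1 i hi
          · obtain ⟨w, hw, hw'⟩ := Finset.mem_map.1 hx.2
            have h3 : z jj = w := g.injective (hz2.trans hw'.symm)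
            rw [h3]
            exact hw
      · intro Pj F Q hPG hPp hF hQ hs hRF
        have h1 := ih (by omega) (Function.update O jj Q) (Function.update P jj Pj) (E ∪ A F)
          hRF ?_ ?_ ?_
        · refine hsub _ _ ?_ h1
          intro x hx
          rcases Finset.mem_union.1 hx with hx | hx
          · exact Finset.mem_union_left _ (Finset.mem_union_left _ hx)
          · rw [hA] at hx
            rcases Finset.mem_union.1 hx.2 with h2 | h2
            · refine Finset.mem_union_left _ (Finset.mem_union_right _ ?_)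
              rw [hA]
              exact ⟨hx.1, h2⟩
            · refine Finset.mem_union_right _ (Finset.mem_filter.2 ⟨Finset.mem_univ _, ?_⟩)
              intro i hi
              by_cases hij : i = jj
              · subst hij
                rw [Function.update_self]
                exact h2
              · rw [Function.update_of_ne hij]
                refine hx.1 i ?_
                have h3 : i.1 ≠ k - (j + 1) := fun h4 => hij (Fin.ext h4)
                omega
        · intro i hi
          by_cases hij : i = jj
          · subst hij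
            rw [Function.update_self, Function.update_self]
            exact ⟨hPG, hPp, hQ, hs⟩
          · rw [Function.update_of_ne hij, Function.update_of_ne hij]
            have h3 : i.1 ≠ k - (j + 1) := fun h4 => hij (Fin.ext h4)
            exact hOP i (by omega)
        · intro g hg x hx
          have hg1 : ∀ i : Fin k, i.1 < k - (j + 1) → g i ∈ P i := by
            intro i hi
            have h2 := hg i (by omega)
            rw [Function.update_of_ne (hne i hi)] at h2
            exact h2
          rcases Finset.mem_union.1 hx with hx | hx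
          · exact Finset.mem_union_left _ (hE g hg1 x hx)
          · refine Finset.mem_union_right _ ?_
            rw [hA] at hx ⊢
            refine ⟨fun i hi => ?_, ?_⟩
            · exact ((hOP i hi).2.2.1 _ (hx.1 i hi) _).2 ⟨g i, hg1 i hi, rfl⟩
            · have h2 := hg jj (by change k - (j + 1) < k - j; omega)
              rw [Function.update_self] at h2
              rw [← hF _ h2]
              exact Finset.mem_map_of_mem _ hx.2
        · intro x y hxy hx
          rcases Finset.mem_union.1 hx with hx | hx
          · exact Finset.mem_union_left _ (hE' x y (fun i hi => hxy i (by omega)) hx)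
          · refine Finset.mem_union_right _ ?_
            rw [hA] at hx ⊢
            refine ⟨fun i hi => ?_, ?_⟩
            · rw [← hxy i (by omega)]
              exact hx.1 i hi
            · rw [← hxy jj (by change k - (j + 1) < k - j; omega)]
              exact hx.2
  have hfin := key k le_rfl (fun i => ∅) (fun i => ⊥) ∅ h0
    (fun i hi => absurd hi (by omega)) (fun g _ x hx => absurd hx (Finset.notMem_empty _))
    (fun x y _ hx => absurd hx (Finset.notMem_empty _))
  refine hsub _ _ ?_ hfin
  intro x _
  exact Finset.mem_union_right _ (Finset.mem_filter.2 ⟨Finset.mem_univ _, fun i hi => by omega⟩)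

end pi

end Pool.Agent.R598.EV
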