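import Pool.Agent.R598.EV.Bound

/-!
# Functions on products of sets
-/

set_option autoImplicit false

namespace Pool.Agent.R598.EV

open Finset
open Pool.Agent.TH431.GQ (DepthLe ind ind_mono)

/-- The bound for functions on products. -/
theorem product {p k : ℕ} {X : Fin k → Type} {Y : Type} [∀ i, Fintype (X i)]
    [∀ i, DecidableEq (X i)] [Fintype Y] [DecidableEq Y] {s : Fin k → ℕ}
    {G : ∀ i, Subgroup (Equiv.Perm (X i))} {H : Subgroup (Equiv.Perm Y)} (hp : p.Prime)
    (hG : ∀ i, Conn p (s i) (G i)) (hH : Oliver p H) (htr : ∀ y y', ∃ h ∈ H, h y = y')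
    {f : ((∀ i, X i) × Y → Bool) → Bool} (hmono : Monotone f) (hne : ∃ x y, f x ≠ f y)
    (hinvG : ∀ i, ∀ g ∈ G i, ∀ x : (∀ i, X i) × Y → Bool,
      f (fun v => x (Function.update v.1 i (g (v.1 i)), v.2)) = f x)
    (hinvH : ∀ h ∈ H, ∀ x : (∀ i, X i) × Y → Bool, f (fun v => x (v.1, h v.2)) = f x) {d : ℕ}
    (hd : DepthLe d f) : (∏ i, s i) * Fintype.card Y ≤ d := by
  have : Fact p.Prime := ⟨hp⟩
  refine bound (conn_pi hG) hH htr hmono hne ?_ hinvH hd
  intro g hg
  obtain ⟨g', h1, rfl⟩ := mem_piG.1 hg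
  have key : ∀ t : Finset (Fin k), ∀ x : (∀ i, X i) × Y → Bool,
      f (fun v => x (fun i => if i ∈ t then g' i (v.1 i) else v.1 i, v.2)) = f x := by
    intro t
    induction t using Finset.induction_on with
    | empty =>
      intro x
      simp
    | insert j t hj ih =>
      intro x
      rw [← ih x]
      rw [← hinvG j (g' j) (h1 j) (fun v => x (fun i => if i ∈ t then g' i (v.1 i) else v.1 i,
        v.2))]
      congr 1
      funext v
      congr 2
      funext i
      by_cases hij : i = j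
      · subst hij
        simp [hj]
      · by_cases hit : i ∈ t
        · simp [hij, hit]
        · simp [hij, hit]
  intro x
  have h2 := key Finset.univ x
  simp only [Finset.mem_univ, if_true] at h2
  exact h2

theorem oliver_cycle (p m : ℕ) : ∃ H : Subgroup (Equiv.Perm (Fin m)), Oliver p H ∧
    ∀ y y', ∃ h ∈ H, h y = y' := by
  rcases Nat.eq_zero_or_pos m with rfl | hm
  · exact ⟨_, ⟨2, ⊥, ⊥, 1, Nat.prime_two, IsPGroup.of_bot, IsPGroup.of_bot, by simp, by simp,
      rfl⟩, fun y => y.elim0⟩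
  · obtain ⟨m, rfl⟩ : ∃ n, m = n + 1 := ⟨m - 1, by omega⟩
    refine ⟨_, ⟨2, ⊥, ⊥, finRotate (m + 1), Nat.prime_two, IsPGroup.of_bot, IsPGroup.of_bot,
      ?_, ?_, rfl⟩, ?_⟩
    · intro x hx
      rw [Subgroup.mem_bot] at hx ⊢
      rw [hx]
      simp
    · intro t ht x hx
      rw [Subgroup.mem_bot] at ht
      rw [ht]
      simpa using hx
    · intro y y'
      refine ⟨finRotate (m + 1) ^ (y'.val + (m + 1) - y.val), ?_, ?_⟩
      · exact (le_sup_right.trans le_sup_left : Subgroup.zpowers (finRotate (m + 1)) ≤ _)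
          (Subgroup.pow_mem _ (Subgroup.mem_zpowers _) _)
      · have h : ∀ i : ℕ, ∀ y : Fin (m + 1),
            ((finRotate (m + 1) ^ i) y).val = (y.val + i) % (m + 1) := by
          intro i
          induction i with
          | zero =>
            intro y
            simp [Nat.mod_eq_of_lt y.2]
          | succ i ih =>
            intro y
            rw [pow_succ', Equiv.Perm.mul_apply, finRotate_apply, Fin.val_add, ih,
              Nat.mod_add_mod, add_assoc]
            rcases Nat.eq_zero_or_pos m with rfl | hm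
            · simp [Nat.mod_one]
            · have h1 : ((1 : Fin (m + 1)) : ℕ) = 1 := by
                rw [Fin.val_one']
                exact Nat.mod_eq_of_lt (by omega)
              rw [h1]
        refine Fin.ext ?_
        rw [h]
        have h1 : y.val + (y'.val + (m + 1) - y.val) = y'.val + (m + 1) := by
          have := y.2
          omega
        rw [h1, Nat.add_mod_right, Nat.mod_eq_of_lt y'.2]

/-- Functions on `m 0 × ... × m k` which are invariant under all permutations of each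
coordinate. -/
theorem partite {k : ℕ} {m : Fin (k + 1) → ℕ} {f : ((∀ i, Fin (m i)) → Bool) → Bool}
    (hmono : Monotone f) (hne : ∃ x y, f x ≠ f y)
    (hinv : ∀ i, ∀ g : Equiv.Perm (Fin (m i)), ∀ x : (∀ i, Fin (m i)) → Bool,
      f (fun v => x (Function.update v i (g (v i)))) = f x) {d : ℕ} (hd : DepthLe d f)
    {p : ℕ} (hp : p.Prime) {a : Fin (k + 1) → ℕ} (ha : ∀ i, p ^ a i ≤ m i) (j : Fin (k + 1)) :
    (∏ i : Fin k, p ^ a (j.succAbove i)) * m j ≤ d := by
  have : Fact p.Prime := ⟨hp⟩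
  let e : (∀ i, Fin (m i)) ≃ (∀ i : Fin k, Fin (m (j.succAbove i))) × Fin (m j) :=
    (Fin.insertNthEquiv (fun i => Fin (m i)) j).symm.trans (Equiv.prodComm _ _)
  have he1 : ∀ v i, (e v).1 i = v (j.succAbove i) := fun v i => rfl
  have he2 : ∀ v, (e v).2 = v j := fun v => rfl
  obtain ⟨H, hH, htr⟩ := oliver_cycle p (m j)
  have h := product (X := fun i : Fin k => Fin (m (j.succAbove i))) (Y := Fin (m j))
    (s := fun i => p ^ a (j.succAbove i)) (G := fun _ => ⊤) (H := H) hp
    (fun i => conn_top (by rw [Fintype.card_fin]; exact ha _)) hH htr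
    (f := fun x => f (x ∘ e)) (fun x y hxy => hmono fun v => hxy (e v)) (by
      obtain ⟨x, y, hxy⟩ := hne
      refine ⟨x ∘ e.symm, y ∘ e.symm, ?_⟩
      have h1 : ∀ x : (∀ i, Fin (m i)) → Bool, (x ∘ e.symm) ∘ e = x := by
        intro x
        funext v
        simp
      rw [h1, h1]
      exact hxy) (by
      intro i g _ x
      change f (fun v => x (Function.update (e v).1 i (g ((e v).1 i)), (e v).2)) = f (x ∘ e)
      rw [← hinv (j.succAbove i) g (x ∘ e)]
      congr 1
      funext v
      change _ = x (e _)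
      congr 1
      refine Prod.ext ?_ ?_
      · funext l
        change Function.update (e v).1 i (g ((e v).1 i)) l = (e _).1 l
        rw [he1, he1]
        by_cases hl : l = i
        · subst hl
          rw [Function.update_self, Function.update_self]
        · rw [Function.update_of_ne hl, Function.update_of_ne (fun h => hl
            (Fin.succAbove_right_injective h)), he1]
      · change (e v).2 = (e _).2
        rw [he2, he2, Function.update_of_ne (Fin.ne_succAbove j i)]) (by
      intro h _ x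
      change f (fun v => x ((e v).1, h (e v).2)) = f (x ∘ e)
      rw [← hinv j h (x ∘ e)]
      congr 1
      funext v
      change _ = x (e _)
      congr 1
      refine Prod.ext ?_ ?_
      · funext l
        change (e v).1 l = (e _).1 l
        rw [he1, he1, Function.update_of_ne (Fin.succAbove_ne j l)]
      · change h (e v).2 = (e _).2
        rw [he2, he2, Function.update_self]) (depth_equiv e hd)
  rw [Fintype.card_fin] at h
  exact h

theorem partite_two {k : ℕ} {m : Fin (k + 1) → ℕ} {f : ((∀ i, Fin (m i)) → Bool) → Bool}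
    (hmono : Monotone f) (hne : ∃ x y, f x ≠ f y)
    (hinv : ∀ i, ∀ g : Equiv.Perm (Fin (m i)), ∀ x : (∀ i, Fin (m i)) → Bool,
      f (fun v => x (Function.update v i (g (v i)))) = f x) {d : ℕ} (hd : DepthLe d f) :
    ∏ i, m i ≤ 2 ^ k * d := by
  have hm : ∀ i, m i ≠ 0 := by
    intro i hi
    obtain ⟨x, y, hxy⟩ := hne
    apply hxy
    congr 1
    funext v
    have h1 : Fin (m i) := v i
    rw [hi] at h1
    exact h1.elim0
  have h := partite hmono hne hinv hd Nat.prime_two (a := fun i => Nat.log 2 (m i))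
    (fun i => Nat.pow_log_le_self 2 (hm i)) 0
  rw [Fin.prod_univ_succ]
  have h1 : ∏ i : Fin k, m i.succ ≤ 2 ^ k * ∏ i : Fin k, 2 ^ Nat.log 2 (m i.succ) := by
    have h2 : 2 ^ k * ∏ i : Fin k, 2 ^ Nat.log 2 (m i.succ) =
        ∏ i : Fin k, (2 * 2 ^ Nat.log 2 (m i.succ)) := by
      rw [Finset.prod_mul_distrib, Finset.prod_const, Finset.card_univ, Fintype.card_fin]
    rw [h2]
    refine Finset.prod_le_prod' fun i _ => ?_
    have h3 := Nat.lt_pow_succ_log_self (b := 2) (by norm_num) (m i.succ)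
    rw [pow_succ] at h3
    omega
  have h4 : (∏ i : Fin k, 2 ^ Nat.log 2 (m (Fin.succAbove 0 i))) =
      ∏ i : Fin k, 2 ^ Nat.log 2 (m i.succ) := by
    refine Finset.prod_congr rfl fun i _ => ?_
    rw [Fin.zero_succAbove]
  rw [h4] at h
  calc m 0 * ∏ i : Fin k, m i.succ ≤ m 0 * (2 ^ k * ∏ i : Fin k, 2 ^ Nat.log 2 (m i.succ)) :=
        Nat.mul_le_mul_left _ h1
    _ = 2 ^ k * ((∏ i : Fin k, 2 ^ Nat.log 2 (m i.succ)) * m 0) := by ring
    _ ≤ 2 ^ k * d := Nat.mul_le_mul_left _ h

theorem partite_weak {k t : ℕ} (ht : 1 ≤ t) {m : Fin (k + 1) → ℕ}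
    {f : ((∀ i, Fin (m i)) → Bool) → Bool} (hmono : Monotone f) (hne : ∃ x y, f x ≠ f y)
    (hinv : ∀ i, ∀ g : Equiv.Perm (Fin (m i)), ∀ x : (∀ i, Fin (m i)) → Bool,
      f (fun v => x (Function.update v i (g (v i)))) = f x) {d : ℕ} (hd : DepthLe d f)
    (hm : ∀ i, 2 ^ t ≤ m i) : ((∏ i, m i : ℕ) : ℝ) ^ (1 - 1 / (t : ℝ)) ≤ d := by
  have h := partite_two hmono hne hinv hd
  set n : ℕ := ∏ i, m i with hn
  have ht' : (0 : ℝ) < t := by exact_mod_cast ht
  have hnt : 2 ^ (k * t) ≤ n := by
    have h1 : (2 ^ t) ^ (k + 1) ≤ n := by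
      have h0 : (2 ^ t) ^ (k + 1) = ∏ _i : Fin (k + 1), 2 ^ t := by
        rw [Finset.prod_const, Finset.card_univ, Fintype.card_fin]
      rw [h0]
      exact Finset.prod_le_prod' fun i _ => hm i
    refine le_trans ?_ h1
    rw [← pow_mul]
    exact Nat.pow_le_pow_right (by norm_num) (by nlinarith)
  have hn0 : (0 : ℝ) < n := by
    have : 0 < n := lt_of_lt_of_le (by positivity) hnt
    exact_mod_cast this
  have h2 : (2 : ℝ) ^ k ≤ (n : ℝ) ^ (1 / (t : ℝ)) := by
    rw [Real.le_rpow_iff_log_le (by positivity) hn0, Real.log_pow]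
    have h3 : Real.log ((2 : ℝ) ^ (k * t)) ≤ Real.log n := by
      refine Real.log_le_log (by positivity) ?_
      exact_mod_cast hnt
    rw [Real.log_pow] at h3
    push_cast at h3
    rw [one_div, inv_mul_eq_div, le_div_iff₀ ht']
    linarith
  have h4 : (n : ℝ) ^ (1 - 1 / (t : ℝ)) = n / (n : ℝ) ^ (1 / (t : ℝ)) := by
    rw [Real.rpow_sub hn0, Real.rpow_one]
  rw [h4, div_le_iff₀ (Real.rpow_pos_of_pos hn0 _)]
  have h5 : (n : ℝ) ≤ 2 ^ k * d := by exact_mod_cast h
  calc (n : ℝ) ≤ 2 ^ k * d := h5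
    _ ≤ (n : ℝ) ^ (1 / (t : ℝ)) * d := by
      exact mul_le_mul_of_nonneg_right h2 (Nat.cast_nonneg d)
    _ = d * (n : ℝ) ^ (1 / (t : ℝ)) := mul_comm _ _

end Pool.Agent.R598.EV
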