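import Pool.Agent.TH431.GQ.Tree
import Pool.Agent.TH669.OL.Crit

/-!
# A shallow decision tree does not see a large orbit of an Oliver group
-/

set_option autoImplicit false

namespace Pool.Agent.R598.EV

open Finset
open Pool.Agent.TH431.GQ (DepthLe ind mix ne_of_depth ne_congr mix_ind ind_mono)
open Pool.Agent.TH669.AD (Inv Crit)

theorem step_fin {n k : ℕ} {f : (Fin n → Bool) → Bool} (hmono : Monotone f) (h : DepthLe k f)
    (Γ : Subgroup (Equiv.Perm (Fin n))) (hcrit : Crit Γ)
    (hinv : ∀ g ∈ Γ, ∀ A : Finset (Fin n), f (ind (A.map g.toEmbedding)) = f (ind A))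
    (Y O : Finset (Fin n)) (hd : Disjoint Y O) (hO : k < O.card) (hY : Inv Γ Y) (hOi : Inv Γ O)
    (htr : ∀ S, S ⊆ O → S.Nonempty → Inv Γ S → S = O) (htrue : f (ind (Y ∪ O)) = true) :
    f (ind Y) = true := by
  by_contra hne
  have hY0 : f (ind Y) = false := by simpa using hne
  have hNE : Pool.Agent.H98R2.Ev.NE O (fun S => f (ind (Y ∪ S)) = false) := by
    refine ne_congr (ne_of_depth h O hO (ind Y)) fun S hS => ?_
    rw [mix_ind O Y S hS hd]
  refine hcrit O (fun S => f (ind (Y ∪ S)) = false) (card_pos.1 (by omega)) hOi ?_ ?_ ?_ ?_ hNE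
  · intro S T hST _ hT
    have h1 : f (ind (Y ∪ S)) ≤ f (ind (Y ∪ T)) :=
      hmono (ind_mono (union_subset_union_right hST))
    rw [hT] at h1
    exact le_bot_iff.1 h1
  · intro g hg S _ hS
    have h1 : Y ∪ S.map g.toEmbedding = (Y ∪ S).map g.toEmbedding := by
      rw [Finset.map_union, hY g hg]
    change f (ind (Y ∪ S.map g.toEmbedding)) = false
    rw [h1, hinv g hg]
    exact hS
  · intro S hS hSi
    rcases S.eq_empty_or_nonempty with rfl | hne'
    · simpa using hY0
    · exact absurd (htr S hS.1 hne' hSi) hS.ne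
  · rw [htrue]
    simp

/-- Transport of decision trees. -/
theorem depth_equiv {E F : Type} [DecidableEq E] [DecidableEq F] (e : E ≃ F) {k : ℕ}
    {f : (E → Bool) → Bool} (h : DepthLe k f) : DepthLe k fun x : F → Bool => f (x ∘ e) := by
  intro P h0 h1
  refine h (fun m g => P m fun x : F → Bool => g (x ∘ e)) ?_ ?_
  · intro m g hg
    exact h0 m _ fun x y => hg _ _
  · intro m g i ha hb
    have hu : ∀ (x : F → Bool) (b : Bool), Function.update x (e i) b ∘ e =
        Function.update (x ∘ e) i b := by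
      intro x b
      funext j
      by_cases hj : j = i
      · subst hj
        simp
      · have : e j ≠ e i := fun h => hj (e.injective h)
        simp [Function.update_of_ne hj, Function.update_of_ne this]
    refine h1 m _ (e i) ?_ ?_
    · have h2 : (fun x : F → Bool => g (Function.update x (e i) false ∘ e)) =
          fun x : F → Bool => g (Function.update (x ∘ e) i false) := by
        funext x
        rw [hu]
      change P m (fun x : F → Bool => g (Function.update x (e i) false ∘ e))
      rw [h2]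
      exact ha
    · have h2 : (fun x : F → Bool => g (Function.update x (e i) true ∘ e)) =
          fun x : F → Bool => g (Function.update (x ∘ e) i true) := by
        funext x
        rw [hu]
      change P m (fun x : F → Bool => g (Function.update x (e i) true ∘ e))
      rw [h2]
      exact hb

theorem ind_map {E F : Type} [DecidableEq E] [DecidableEq F] (e : E ≃ F) (A : Finset E) :
    ind (A.map e.toEmbedding) ∘ e = ind A := by
  funext x
  simp [ind]

/-- A shallow decision tree does not see a large orbit of an Oliver group. -/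
theorem step {E : Type} [Fintype E] [DecidableEq E] {k : ℕ} {f : (E → Bool) → Bool}
    (hmono : Monotone f) (h : DepthLe k f) (p q : ℕ) [Fact p.Prime] [Fact q.Prime]
    (P S : Subgroup (Equiv.Perm E)) (c : Equiv.Perm E) (hP : IsPGroup p P) (hS : IsPGroup q S)
    (hc : ∀ x ∈ P, c⁻¹ * x * c ∈ P)
    (hSn : ∀ s ∈ S, ∀ x ∈ P ⊔ Subgroup.zpowers c, s⁻¹ * x * s ∈ P ⊔ Subgroup.zpowers c)
    (hinv : ∀ g ∈ P ⊔ Subgroup.zpowers c ⊔ S, ∀ A : Finset E,
      f (ind (A.map g.toEmbedding)) = f (ind A))
    (Y O : Finset E) (hd : Disjoint Y O) (hO : k < O.card)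
    (hY : ∀ g ∈ P ⊔ Subgroup.zpowers c ⊔ S, Y.map g.toEmbedding = Y)
    (hOt : ∀ x ∈ O, ∀ y, y ∈ O ↔ ∃ g ∈ P ⊔ Subgroup.zpowers c ⊔ S, g x = y)
    (htrue : f (ind (Y ∪ O)) = true) : f (ind Y) = true := by
  classical
  let e : E ≃ Fin (Fintype.card E) := Fintype.equivFin E
  let φ : Equiv.Perm E ≃* Equiv.Perm (Fin (Fintype.card E)) := e.permCongrHom
  have hφ : ∀ (g : Equiv.Perm E) (x : E), φ g (e x) = e (g x) := by
    intro g x
    simp [φ]
  have hφm : ∀ (g : Equiv.Perm E) (A : Finset E),
      (A.map e.toEmbedding).map (φ g).toEmbedding = (A.map g.toEmbedding).map e.toEmbedding := by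
    intro g A
    rw [Finset.map_map, Finset.map_map]
    congr 1
    ext x
    exact congrArg Fin.val (hφ g x)
  have hΓ : P.map φ.toMonoidHom ⊔ Subgroup.zpowers (φ c) ⊔ S.map φ.toMonoidHom =
      (P ⊔ Subgroup.zpowers c ⊔ S).map φ.toMonoidHom := by
    rw [Subgroup.map_sup, Subgroup.map_sup, MonoidHom.map_zpowers]
    rfl
  have hΓ' : P.map φ.toMonoidHom ⊔ Subgroup.zpowers (φ c) =
      (P ⊔ Subgroup.zpowers c).map φ.toMonoidHom := by
    rw [Subgroup.map_sup, MonoidHom.map_zpowers]
    rfl
  have hcrit : Crit (P.map φ.toMonoidHom ⊔ Subgroup.zpowers (φ c) ⊔ S.map φ.toMonoidHom) := by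
    refine Pool.Agent.TH669.OL.crit_oliver p q _ _ _ (hP.map _) (hS.map _) ?_ ?_
    · rintro _ ⟨x, hx, rfl⟩
      exact ⟨c⁻¹ * x * c, hc x hx, by simp⟩
    · rw [hΓ']
      rintro _ ⟨s, hs, rfl⟩ _ ⟨x, hx, rfl⟩
      exact ⟨s⁻¹ * x * s, hSn s hs x hx, by simp⟩
  have hsurj : ∀ A : Finset (Fin (Fintype.card E)),
      ∃ B : Finset E, A = B.map e.toEmbedding := by
    intro A
    refine ⟨A.map e.symm.toEmbedding, ?_⟩
    rw [Finset.map_map]
    ext x
    simp
  have h1 := step_fin (f := fun x => f (x ∘ e)) (fun x y hxy => hmono fun i => hxy (e i))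
    (depth_equiv e h) _ hcrit (by
      intro g hg A
      rw [hΓ] at hg
      obtain ⟨g', hg', rfl⟩ := hg
      obtain ⟨B, rfl⟩ := hsurj A
      change f (ind ((B.map e.toEmbedding).map (φ g').toEmbedding) ∘ e) = f (ind _ ∘ e)
      rw [hφm, ind_map, ind_map]
      exact hinv g' hg' B) (Y.map e.toEmbedding) (O.map e.toEmbedding)
    ((Finset.disjoint_map _).2 hd) (by rw [Finset.card_map]; exact hO) (by
      intro g hg
      rw [hΓ] at hg
      obtain ⟨g', hg', rfl⟩ := hg
      change (Y.map e.toEmbedding).map (φ g').toEmbedding = _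
      rw [hφm, hY g' hg']) (by
      intro g hg
      rw [hΓ] at hg
      obtain ⟨g', hg', rfl⟩ := hg
      change (O.map e.toEmbedding).map (φ g').toEmbedding = _
      rw [hφm]
      congr 1
      refine Finset.eq_of_subset_of_card_le ?_ (by rw [Finset.card_map])
      intro y hy
      obtain ⟨x, hx, rfl⟩ := Finset.mem_map.1 hy
      exact (hOt x hx _).2 ⟨g', hg', rfl⟩) (by
      intro T hT hTne hTi
      obtain ⟨B, rfl⟩ := hsurj T
      have hB : B ⊆ O := by
        intro x hx
        have h2 := hT (Finset.mem_map_of_mem _ hx)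
        simpa using h2
      congr 1
      refine Finset.Subset.antisymm hB fun y hy => ?_
      obtain ⟨x, hx⟩ : B.Nonempty := by
        obtain ⟨z, hz⟩ := hTne
        obtain ⟨x, hx, -⟩ := Finset.mem_map.1 hz
        exact ⟨x, hx⟩
      obtain ⟨g, hg, rfl⟩ := (hOt x (hB hx) y).1 hy
      have h3 := hTi (φ g) (by
        rw [hΓ]
        exact ⟨g, hg, rfl⟩)
      rw [hφm] at h3
      have h4 : e (g x) ∈ (B.map g.toEmbedding).map e.toEmbedding :=
        Finset.mem_map_of_mem _ (Finset.mem_map_of_mem _ hx)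
      rw [h3] at h4
      simpa using h4) (by
      change f (ind _ ∘ e) = true
      rw [← Finset.map_union, ind_map]
      exact htrue)
  change f (ind _ ∘ e) = true at h1
  rw [ind_map] at h1
  exact h1

end Pool.Agent.R598.EV
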